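import Pool.Agent.Helper74.RN.St

/-!
Project RN (MP_26f0da_lc), module MXC: perfect matchings of different colours.
-/

set_option autoImplicit false

namespace Pool.Agent.Helper26.RN

open Pool.Agent.Helper74 Pool.Agent.Helper74.RN
open Pool.Agent.Helper74.NM (NC)

private theorem nc_of {G : Type} (act : G → Bool) (col : G → ℕ) (z : List (Option ℕ))
    (h : NC DI.Dc z) : ∀ l : List G, (∀ x ∈ l, act x = true) →
      z = l.map (fun x => some (col x)) → NC (Rc act col) l := by
  induction h with
  | nil =>
    intro l _ hz
    have h0 : l = [] := List.map_eq_nil_iff.1 hz.symm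
    rw [h0]
    exact NC.nil
  | wrap x y u v hxy hu hv ihu ihv =>
    intro l hl hz
    obtain ⟨a, l1, rfl, ha, h1⟩ := List.map_eq_cons_iff.1 hz.symm
    obtain ⟨l2, l3, rfl, h2, h3⟩ := List.map_eq_append_iff.1 h1
    obtain ⟨b, l4, rfl, hb, h4⟩ := List.map_eq_cons_iff.1 h3
    refine NC.wrap a b l2 l4 ⟨hl a (by simp), hl b (by simp), ?_⟩
      (ihu l2 (fun t ht => hl t (by simp [ht])) h2.symm)
      (ihv l4 (fun t ht => hl t (by simp [ht])) h4.symm)
    intro hab
    rcases hxy with h | h
    · exact h (by rw [← ha, ← hb, hab])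
    · rw [← ha] at h
      exact Option.some_ne_none _ h

private theorem count_map {G : Type} (col : G → ℕ) (l : List G) (c : ℕ) :
    (l.map (fun x => some (col x))).count (some c) = l.countP (fun x => decide (col x = c)) := by
  induction l with
  | nil => rfl
  | cons a t ih =>
    rw [List.map_cons, List.count_cons, List.countP_cons, ih]
    by_cases h : col a = c
    · simp [h]
    · simp [h]

/-- **MXC** -/
theorem hMXC (hMAJ : DI.StMAJ) : StMXC := by
  intro G act col l hact hev hc
  refine nc_of act col (l.map (fun x => some (col x))) ?_ l hact rfl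
  rw [hMAJ]
  refine ⟨by rwa [List.length_map], ?_⟩
  intro c
  rw [count_map, List.length_map]
  exact hc c

end Pool.Agent.Helper26.RN
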